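import Pool.Agent.Lib.MP_3467cd_al.CuEss

namespace Pool.Agent.Results.MP_3467cd_al.SingleOrbitAll

open Pool.Agent.Lib.MP_3467cd_al

theorem result (G : Type) [Group G] (hG : IsHyperbolicGroup G) (V : Type) (X : SimpleGraph V)
    [MulAction G V] (hX : IsCubulation G X) :
    ∃ (W : Type) (Y : SimpleGraph W) (_ : MulAction G W),
      IsCubulation G Y ∧ HyperplaneEssential G Y ∧ SingleOrbit G Y ∧
        (Infinite G → ¬ Inessential Y fun x y => ∃ g : G, g • x = y) := by
  obtain ⟨W, Y, i, h1, h2, h3⟩ := Cu.main_goal hG hX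
  exact ⟨W, Y, i, h1, h2, h3, fun h => h1.essential_of_single h3 h⟩

end Pool.Agent.Results.MP_3467cd_al.SingleOrbitAll
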